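import Mathlib

/-!
# Topological sofic entropy of algebraic actions: definitions
-/

set_option autoImplicit false

namespace Pool.Agent.H299Sofic

open Filter

/-- `Γ` is amenable: Følner's condition. -/
def Amenable (Γ : Type*) [Group Γ] : Prop :=
  open Classical in
  ∀ (F : Finset Γ) (ε : ℝ), 0 < ε → ∃ A : Finset Γ, A.Nonempty ∧
    ∀ s ∈ F, ((symmDiff (A.image (fun a => s * a)) A).card : ℝ) < ε * (A.card : ℝ)

/-- The maps `π n : Γ → Sym (k n)` are a sofic approximation of `Γ`: they are asymptotically multiplicative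
and asymptotically free, and `k n → ∞`. -/
structure IsSoficApproximation (Γ : Type*) [Group Γ] (k : ℕ → ℕ)
    (π : ∀ n, Γ → Equiv.Perm (Fin (k n))) : Prop where
  tendsto_card : Tendsto k atTop atTop
  mul : ∀ s t : Γ, Tendsto (fun n =>
    ((Finset.univ.filter (fun i => π n (s * t) i ≠ π n s (π n t i))).card : ℝ) / (k n : ℝ)) atTop (nhds 0)
  free : ∀ s t : Γ, s ≠ t → Tendsto (fun n =>
    ((Finset.univ.filter (fun i => π n s i = π n t i)).card : ℝ) / (k n : ℝ)) atTop (nhds 0)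

/-- `ρ₂ (φ, ψ) = (d⁻¹ ∑ ρ (φ i, ψ i) ²) ^ (1 / 2)` for two maps of `{0, ..., d - 1}` to `X`. -/
noncomputable def rhoTwo {X : Type*} (ρ : X → X → ℝ) {d : ℕ} (φ ψ : Fin d → X) : ℝ :=
  Real.sqrt ((∑ i, ρ (φ i) (ψ i) ^ 2) / (d : ℝ))

/-- The set `Map (ρ, F, δ, σ)` of the `φ : {0, ..., d - 1} → X` with `ρ₂ (φ ∘ σ s, s φ) < δ` for all `s ∈ F`. -/
def Map {Γ X : Type*} (act : Γ → X → X) (ρ : X → X → ℝ) (F : Finset Γ) (δ : ℝ) {d : ℕ}
    (σ : Γ → Equiv.Perm (Fin d)) : Set (Fin d → X) :=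
  {φ | ∀ s ∈ F, rhoTwo ρ (fun i => φ (σ s i)) (fun i => act s (φ i)) < δ}

/-- The largest size of a subset of `Z` whose elements have distances at least `ε` for
`ρ∞ (φ, ψ) = max ρ (φ i, ψ i)`. -/
noncomputable def sepNumber {X : Type*} (ρ : X → X → ℝ) {d : ℕ} (Z : Set (Fin d → X)) (ε : ℝ) : ENNReal :=
  ⨆ (T : Finset (Fin d → X)) (_ : (∀ φ ∈ T, φ ∈ Z) ∧ ∀ φ ∈ T, ∀ ψ ∈ T, φ ≠ ψ → ∃ i, ε ≤ ρ (φ i) (ψ i)),
    (T.card : ENNReal)

/-- The topological sofic entropy (Kerr and Li) of the action `act` of `Γ` on the space `X` with the metric `ρ`,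
with respect to the maps `π n : Γ → Sym (k n)`: the supremum over `ε > 0` of the infimum over finite `F ⊆ Γ` and
`δ > 0` of `limsup (k n)⁻¹ log N_ε (Map (ρ, F, δ, π n), ρ∞)`. Here `log 0 = -∞`. -/
noncomputable def soficEntropy {Γ X : Type*} (act : Γ → X → X) (ρ : X → X → ℝ) (k : ℕ → ℕ)
    (π : ∀ n, Γ → Equiv.Perm (Fin (k n))) : EReal :=
  ⨆ (ε : ℝ) (_ : 0 < ε), ⨅ (F : Finset Γ) (δ : ℝ) (_ : 0 < δ),
    limsup (fun n => (((k n : ℝ)⁻¹ : ℝ) : EReal) * ENNReal.log (sepNumber ρ (Map act ρ F δ (π n)) ε)) atTop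

/-- The dual group `Hom (A, ℝ/ℤ)` of `A`. -/
abbrev Dual (A : Type*) [AddCommGroup A] : Type _ := A →+ UnitAddCircle

/-- The topology of the dual group: pointwise convergence. -/
def dualTopology (A : Type*) [AddCommGroup A] : TopologicalSpace (Dual A) :=
  TopologicalSpace.induced (fun (χ : Dual A) (a : A) => χ a) Pi.topologicalSpace

/-- The action of `Γ` on the dual group of a `ℤ(Γ)`-module `A`: `(γ χ) (a) = χ (γ⁻¹ a)`. -/
noncomputable def dualAct (Γ A : Type*) [Group Γ] [AddCommGroup A] [Module (MonoidAlgebra ℤ Γ) A] (γ : Γ)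
    (χ : Dual A) : Dual A :=
  χ.comp (DistribSMul.toAddMonoidHom A (MonoidAlgebra.single γ⁻¹ (1 : ℤ) : MonoidAlgebra ℤ Γ))

/-- `ρ` is a metric on `X` that induces the topology `t`. -/
def IsCompatible {X : Type*} (t : TopologicalSpace X) (ρ : X → X → ℝ) : Prop :=
  ∃ m : MetricSpace X, m.toPseudoMetricSpace.toUniformSpace.toTopologicalSpace = t ∧
    ∀ x y, ρ x y = m.toPseudoMetricSpace.toDist.dist x y

end Pool.Agent.H299Sofic
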