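import Mathlib

/-!
# Expansion in groups failing the Følner condition
-/

set_option autoImplicit false

namespace Pool.Agent.H299Sofic

open Finset Pointwise

/-- A finite set by which every finite set expands by a factor. -/
lemma expand_one {Γ : Type*} [Group Γ] [DecidableEq Γ]
    (h : ¬ ∀ (F : Finset Γ) (ε : ℝ), 0 < ε → ∃ A : Finset Γ, A.Nonempty ∧
        ∀ s ∈ F, ((symmDiff (A.image (fun a => s * a)) A).card : ℝ) < ε * (A.card : ℝ)) :
    ∃ (T : Finset Γ) (c : ℝ), 1 < c ∧ (1 : Γ) ∈ T ∧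
      ∀ B : Finset Γ, c * B.card ≤ ((B * T).card : ℝ) := by
  push Not at h
  obtain ⟨F, ε, hε, hF⟩ := h
  refine ⟨insert 1 F⁻¹, 1 + ε / 2, by linarith, mem_insert_self _ _, ?_⟩
  intro B
  rcases B.eq_empty_or_nonempty with rfl | hB
  · simp
  obtain ⟨s, hs, hsB⟩ := hF B⁻¹ hB.inv
  -- B s⁻¹
  set D : Finset Γ := B.image (fun b => b * s⁻¹) with hD
  have hDcard : D.card = B.card := Finset.card_image_of_injective _ (mul_left_injective _)
  have himg : (B⁻¹).image (fun a => s * a) = D⁻¹ := by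
    ext x
    simp only [mem_image, Finset.mem_inv', hD]
    constructor
    · rintro ⟨a, ha, rfl⟩
      exact ⟨a⁻¹, ha, by group⟩
    · rintro ⟨b, hb, hbx⟩
      refine ⟨b⁻¹, by simpa using hb, ?_⟩
      have : x = (b * s⁻¹)⁻¹ := by rw [hbx, inv_inv]
      rw [this]; group
  have hcard : ((symmDiff D⁻¹ B⁻¹).card) = (symmDiff D B).card := by
    have : symmDiff D⁻¹ B⁻¹ = (symmDiff D B)⁻¹ := by
      ext x
      simp [Finset.mem_symmDiff, Finset.mem_inv']
    rw [this, Finset.card_inv]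
  rw [himg, hcard, Finset.card_inv] at hsB
  have hsymm : (symmDiff D B).card = (D \ B).card + (B \ D).card := by
    rw [symmDiff_def, sup_eq_union, Finset.card_union_of_disjoint]
    exact disjoint_sdiff_sdiff
  have h1 : (D \ B).card + (D ∩ B).card = D.card := Finset.card_sdiff_add_card_inter D B
  have h2 : (B \ D).card + (B ∩ D).card = B.card := Finset.card_sdiff_add_card_inter B D
  have h3 : (D ∩ B).card = (B ∩ D).card := by rw [Finset.inter_comm]
  have h4 : (D \ B).card = (B \ D).card := by omega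
  have h5 : (ε / 2) * B.card ≤ ((D \ B).card : ℝ) := by
    rw [hsymm, ← h4] at hsB
    push_cast at hsB
    linarith
  have h6 : (B ∪ D) ⊆ B * (insert 1 F⁻¹) := by
    intro x hx
    rw [mem_union] at hx
    rcases hx with hx | hx
    · exact Finset.mem_mul.mpr ⟨x, hx, 1, mem_insert_self _ _, mul_one x⟩
    · simp only [hD, mem_image] at hx
      obtain ⟨b, hb, rfl⟩ := hx
      exact Finset.mem_mul.mpr ⟨b, hb, s⁻¹, mem_insert_of_mem (by simpa using hs), rfl⟩
  have h7 : (B ∪ D).card = B.card + (D \ B).card := by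
    rw [← Finset.card_union_of_disjoint disjoint_sdiff, Finset.union_sdiff_self_eq_union]
  have h8 : (B ∪ D).card ≤ (B * (insert 1 F⁻¹)).card := Finset.card_le_card h6
  have h9 : (((B ∪ D).card : ℕ) : ℝ) ≤ ((B * (insert 1 F⁻¹)).card : ℝ) := by exact_mod_cast h8
  rw [h7] at h9
  push_cast at h9
  linarith

lemma expand_pow {Γ : Type*} [Group Γ] [DecidableEq Γ] (T : Finset Γ) (c : ℝ) (hc : 1 < c)
    (h : ∀ B : Finset Γ, c * B.card ≤ ((B * T).card : ℝ)) (m : ℕ) (B : Finset Γ) :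
    c ^ m * B.card ≤ ((B * T ^ m).card : ℝ) := by
  induction m with
  | zero => simp
  | succ m ih =>
    have h1 := h (B * T ^ m)
    have h2 : B * T ^ (m + 1) = B * T ^ m * T := by rw [pow_succ, mul_assoc]
    rw [h2]
    calc c ^ (m + 1) * B.card = c * (c ^ m * B.card) := by ring
      _ ≤ c * ((B * T ^ m).card : ℝ) := by gcongr
      _ ≤ _ := h1

/-- The expansion needed below. -/
theorem expand {Γ : Type*} [Group Γ] [DecidableEq Γ]
    (h : ¬ ∀ (F : Finset Γ) (ε : ℝ), 0 < ε → ∃ A : Finset Γ, A.Nonempty ∧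
        ∀ s ∈ F, ((symmDiff (A.image (fun a => s * a)) A).card : ℝ) < ε * (A.card : ℝ)) :
    ∃ (S : Finset Γ) (R : ℕ), 2 * S.card ≤ 2 ^ R ∧
      ∀ F : Finset Γ, 16 * (R + 1) * F.card ≤ (F * S⁻¹).card := by
  obtain ⟨T, c, hc, h1T, hT⟩ := expand_one h
  -- b with |T| ≤ 2 ^ b
  set b := T.card with hb
  have hb2 : T.card ≤ 2 ^ b := Nat.lt_two_pow_self.le
  -- m with c ^ m ≥ 16 (m b + 2)
  have hlim : Filter.Tendsto (fun m : ℕ => ((m : ℝ) ^ 1 / c ^ m)) Filter.atTop (nhds 0) :=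
    tendsto_pow_const_div_const_pow_of_one_lt 1 hc
  have hlim0 : Filter.Tendsto (fun m : ℕ => ((m : ℝ) ^ 0 / c ^ m)) Filter.atTop (nhds 0) :=
    tendsto_pow_const_div_const_pow_of_one_lt 0 hc
  have hlim2 : Filter.Tendsto (fun m : ℕ => 16 * (b : ℝ) * ((m : ℝ) ^ 1 / c ^ m) +
      32 * ((m : ℝ) ^ 0 / c ^ m)) Filter.atTop (nhds (16 * (b : ℝ) * 0 + 32 * 0)) :=
    (hlim.const_mul _).add (hlim0.const_mul _)
  have hev : ∀ᶠ m : ℕ in Filter.atTop, 16 * (b : ℝ) * ((m : ℝ) ^ 1 / c ^ m) +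
      32 * ((m : ℝ) ^ 0 / c ^ m) < 1 :=
    hlim2.eventually_lt_const (by norm_num)
  obtain ⟨m, hm⟩ := hev.exists
  have hcm : 0 < c ^ m := by positivity
  have hm2 : 16 * ((m : ℝ) * b + 2) ≤ c ^ m := by
    have h3 : 16 * (b : ℝ) * ((m : ℝ) ^ 1 / c ^ m) + 32 * ((m : ℝ) ^ 0 / c ^ m) =
        (16 * ((m : ℝ) * b + 2)) / c ^ m := by
      field_simp; ring
    rw [h3, div_lt_one hcm] at hm
    exact hm.le
  refine ⟨(T ^ m)⁻¹, m * b + 1, ?_, ?_⟩
  · rw [Finset.card_inv]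
    have h4 : (T ^ m).card ≤ T.card ^ m := Finset.card_pow_le
    have h5 : T.card ^ m ≤ (2 ^ b) ^ m := Nat.pow_le_pow_left hb2 m
    calc 2 * (T ^ m).card ≤ 2 * (2 ^ b) ^ m := by omega
      _ = 2 ^ (m * b + 1) := by rw [← pow_mul, pow_succ, mul_comm b m, mul_comm]
  · intro F
    rw [inv_inv]
    have h6 := expand_pow T c hc hT m F
    have h7 : ((16 * (m * b + 1 + 1) * F.card : ℕ) : ℝ) ≤ ((F * T ^ m).card : ℝ) := by
      push_cast
      calc (16 * ((m : ℝ) * b + 1 + 1) * F.card) = 16 * ((m : ℝ) * b + 2) * F.card := by ring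
        _ ≤ c ^ m * F.card := by gcongr
        _ ≤ _ := h6
    exact_mod_cast h7

end Pool.Agent.H299Sofic
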