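import Pool.Agent.H299_Sofic.Family
import Pool.Agent.H299_Sofic.Expand

/-!
# An injective equivariant map from `n + 1` copies to `n` copies of the group algebra over `ZMod p`
-/

set_option autoImplicit false

namespace Pool.Agent.H299Sofic

open Finset Pointwise

section Theta

variable {Γ : Type*} [Group Γ] [DecidableEq Γ] (S : Finset Γ) {Y : Type*} [Fintype Y] [DecidableEq Y]
  (X : S → Finset Y) (p M : ℕ) (a : S × Y → ZMod p)

/-- The local map of the element `s`. -/
def alpha (s : S) : (Fin M → ZMod p) →+ (Y → ZMod p) where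
  toFun v y := if y ∈ X s then ∑ j : Fin M, a (s, y) ^ (j : ℕ) * v j else 0
  map_zero' := by ext y; simp
  map_add' v w := by
    ext y
    by_cases h : y ∈ X s
    · simp [h, mul_add, Finset.sum_add_distrib]
    · simp [h]

/-- The map: `(Θ x) g = ∑ s, α s (x (g s))`. -/
noncomputable def theta : (Γ →₀ (Fin M → ZMod p)) →+ (Γ →₀ (Y → ZMod p)) :=
  ∑ s : S, (Finsupp.mapRange.addMonoidHom (alpha S X p M a s)).comp
    (Finsupp.domCongr (Equiv.mulRight (s : Γ)⁻¹)).toAddMonoidHom

lemma theta_apply (x : Γ →₀ (Fin M → ZMod p)) (g : Γ) :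
    theta S X p M a x g = ∑ s : S, alpha S X p M a s (x (g * s)) := by
  simp only [theta, AddMonoidHom.finsetSum_apply, Finsupp.coe_finsetSum, Finset.sum_apply]
  apply Finset.sum_congr rfl
  intro s _
  simp [Finsupp.domCongr]

/-- The values at a point of the support at private elements vanish. -/
lemma theta_priv (x : Γ →₀ (Fin M → ZMod p)) (hx : theta S X p M a x = 0) (g : Γ) (s : S)
    (J : Finset S) (hJ : ∀ t : S, t ∈ J ↔ x (g * t) ≠ 0) (y : Y)
    (hy : y ∈ X s \ (J.erase s).biUnion X) :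
    ∑ j : Fin M, a (s, y) ^ (j : ℕ) * x (g * s) j = 0 := by
  have h1 : (theta S X p M a x g) y = 0 := by rw [hx]; rfl
  rw [theta_apply, Finset.sum_apply, Finset.sum_eq_single s] at h1
  · rw [mem_sdiff] at hy
    simpa [alpha, hy.1] using h1
  · intro t _ hts
    by_cases ht : x (g * t) = 0
    · rw [ht]; simp
    · have h2 : t ∈ J := (hJ t).mpr ht
      have h3 : y ∉ X t := by
        intro h
        rw [mem_sdiff, mem_biUnion] at hy
        exact hy.2 ⟨t, mem_erase.mpr ⟨hts, h2⟩, h⟩
      simp [alpha, h3]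
  · intro h; exact absurd (mem_univ s) h

end Theta

/-- The map is injective under the conditions of `fam_spec` and `expand`. -/
theorem theta_injective {Γ : Type*} [Group Γ] [DecidableEq Γ] (S : Finset Γ) {Y : Type*} [Fintype Y]
    [DecidableEq Y] [Nonempty Y] (X : S → Finset Y) (p : ℕ) [Fact p.Prime]
    (a : S × Y → ZMod p) (ha : Function.Injective a) (R : ℕ)
    (hX : ∀ (J : Finset S) (j : S), j ∈ J → Fintype.card Y ≤
      8 * (R + 1) * J.card * ((X j) \ ((J.erase j).biUnion X)).card)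
    (hS : ∀ F : Finset Γ, 16 * (R + 1) * F.card ≤ (F * S⁻¹).card) :
    Function.Injective (theta S X p (Fintype.card Y + 1) a) := by
  classical
  have hm1 : 1 ≤ Fintype.card Y := Fintype.card_pos
  generalize Fintype.card Y = m at hX hm1 ⊢
  rw [injective_iff_map_eq_zero]
  intro x hx
  by_contra hx0
  set F : Finset Γ := x.support with hF
  have hFne : 1 ≤ F.card := by
    rw [Nat.one_le_iff_ne_zero, Finset.card_ne_zero]
    exact Finsupp.support_nonempty_iff.mpr hx0
  let J : Γ → Finset S := fun g => univ.filter (fun s : S => g * s ∈ F)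
  have hJ : ∀ (g : Γ) (t : S), t ∈ J g ↔ x (g * t) ≠ 0 := by
    intro g t
    simp [J, hF]
  let D : Γ → S → Finset Y := fun g s => X s \ ((J g).erase s).biUnion X
  -- upper bound for the number of roots
  have hup : ∀ f ∈ F, ∑ s : S, (D (f * (s : Γ)⁻¹) s).card ≤ m := by
    intro f hf
    by_contra hcon
    push Not at hcon
    let P : Finset (Σ _ : S, Y) := univ.sigma (fun s : S => D (f * (s : Γ)⁻¹) s)
    have hP : P.card = ∑ s : S, (D (f * (s : Γ)⁻¹) s).card := Finset.card_sigma _ _
    have hP2 : m + 1 ≤ P.card := by rw [hP]; exact hcon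
    obtain ⟨Q, hQP, hQ⟩ := Finset.exists_subset_card_eq hP2
    let e : Fin (m + 1) ≃ Q := (Finset.equivFinOfCardEq hQ).symm
    have hz : x f = 0 := by
      apply Matrix.eq_zero_of_forall_index_sum_pow_mul_eq_zero
        (f := fun i : Fin (m + 1) => a ((e i : Σ _ : S, Y).1, (e i : Σ _ : S, Y).2))
      · intro i j hij
        have h1 := ha hij
        simp only [Prod.mk.injEq] at h1
        apply e.injective
        apply Subtype.ext
        exact Sigma.ext h1.1 (heq_of_eq h1.2)
      · intro i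
        have h2 : (e i : Σ _ : S, Y) ∈ P := hQP (e i).2
        simp only [P, mem_sigma, mem_univ, true_and] at h2
        have h3 := theta_priv S X p (m + 1) a x hx (f * ((e i : Σ _ : S, Y).1 : Γ)⁻¹)
          (e i : Σ _ : S, Y).1 (J _) (hJ _) (e i : Σ _ : S, Y).2 h2
        have h4 : f * ((e i : Σ _ : S, Y).1 : Γ)⁻¹ * ((e i : Σ _ : S, Y).1 : Γ) = f := by group
        rw [h4] at h3
        exact h3
    exact (Finsupp.mem_support_iff.mp hf) hz
  -- double counting
  have hlow : ∀ (g : Γ) (s : S), s ∈ J g →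
      (m : ℝ) / (8 * (R + 1) * (J g).card) ≤ ((D g s).card : ℝ) := by
    intro g s hs
    have h1 := hX (J g) s hs
    have h2 : 0 < ((J g).card : ℝ) := by exact_mod_cast Finset.card_pos.mpr ⟨s, hs⟩
    rw [div_le_iff₀ (by positivity)]
    have h3 : (m : ℝ) ≤ 8 * (R + 1) * (J g).card * ((D g s).card : ℝ) := by exact_mod_cast h1
    linarith
  have hsum : ∑ f ∈ F, ∑ s : S, (m : ℝ) / (8 * (R + 1) * (J (f * (s : Γ)⁻¹)).card) =
      ∑ g ∈ F * S⁻¹, ∑ s ∈ J g, (m : ℝ) / (8 * (R + 1) * (J g).card) := by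
    rw [Finset.sum_sigma', Finset.sum_sigma']
    refine Finset.sum_bij' (fun q _ => ⟨q.1 * (q.2 : Γ)⁻¹, q.2⟩) (fun q _ => ⟨q.1 * (q.2 : Γ), q.2⟩)
      ?_ ?_ ?_ ?_ ?_
    · rintro ⟨f, s⟩ h
      simp only [mem_sigma, mem_univ, and_true] at h
      simp only [mem_sigma, J, mem_filter, mem_univ, true_and, inv_mul_cancel_right]
      exact ⟨Finset.mul_mem_mul h (by simp), h⟩
    · rintro ⟨g, s⟩ h
      simp only [mem_sigma, J, mem_filter, mem_univ, true_and] at h
      simp only [mem_sigma, mem_univ, and_true]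
      exact h.2
    · rintro ⟨f, s⟩ h
      simp
    · rintro ⟨g, s⟩ h
      simp
    · rintro ⟨f, s⟩ h
      rfl
  have hinner : ∀ g ∈ F * S⁻¹, ∑ s ∈ J g, (m : ℝ) / (8 * (R + 1) * (J g).card) =
      (m : ℝ) / (8 * (R + 1)) := by
    intro g hg
    rw [Finset.sum_const, nsmul_eq_mul]
    have h2 : (J g).Nonempty := by
      obtain ⟨f, hf, t, ht, rfl⟩ := Finset.mem_mul.mp hg
      have ht' : t⁻¹ ∈ S := by simpa using ht
      refine ⟨⟨t⁻¹, ht'⟩, ?_⟩
      simp only [J, mem_filter, mem_univ, true_and]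
      simpa using hf
    have h3 : 0 < ((J g).card : ℝ) := by exact_mod_cast Finset.card_pos.mpr h2
    field_simp
  have htot : ∑ f ∈ F, ∑ s : S, (m : ℝ) / (8 * (R + 1) * (J (f * (s : Γ)⁻¹)).card) ≤ F.card * m := by
    calc ∑ f ∈ F, ∑ s : S, (m : ℝ) / (8 * (R + 1) * (J (f * (s : Γ)⁻¹)).card)
        ≤ ∑ f ∈ F, ∑ s : S, ((D (f * (s : Γ)⁻¹) s).card : ℝ) := by
          apply Finset.sum_le_sum
          intro f hf
          apply Finset.sum_le_sum
          intro s _
          apply hlow
          simp only [J, mem_filter, mem_univ, true_and, inv_mul_cancel_right]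
          exact hf
      _ ≤ ∑ f ∈ F, (m : ℝ) := by
          apply Finset.sum_le_sum
          intro f hf
          exact_mod_cast hup f hf
      _ = F.card * m := by rw [Finset.sum_const, nsmul_eq_mul]
  rw [hsum, Finset.sum_congr rfl hinner, Finset.sum_const, nsmul_eq_mul] at htot
  have h5 : (16 * (R + 1) * F.card : ℝ) ≤ ((F * S⁻¹).card : ℝ) := by exact_mod_cast hS F
  have h6 : (16 * (R + 1) * F.card : ℝ) * ((m : ℝ) / (8 * (R + 1))) ≤ F.card * m :=
    le_trans (by gcongr) htot
  have h7 : (16 * (R + 1) * F.card : ℝ) * ((m : ℝ) / (8 * (R + 1))) = 2 * (F.card * m) := by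
    field_simp; ring
  rw [h7] at h6
  have h8 : (0 : ℝ) < F.card * m := by
    have : (1 : ℝ) ≤ F.card := by exact_mod_cast hFne
    have : (1 : ℝ) ≤ m := by exact_mod_cast hm1
    positivity
  linarith

end Pool.Agent.H299Sofic
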