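import Pool.Agent.H299_Sofic.Ent
import Pool.Agent.H299_Sofic.Inj

/-!
# The modules of finitely supported functions and their duals
-/

set_option autoImplicit false

namespace Pool.Agent.H299Sofic

open Filter Topology

section Modules

variable (Γ : Type*) [Group Γ] (V : Type*) [AddCommGroup V]

/-- Left translation of finitely supported functions by one element. -/
noncomputable def shiftOne (γ : Γ) : AddMonoid.End (Γ →₀ V) where
  toFun x := Finsupp.equivMapDomain (Equiv.mulLeft γ) x
  map_zero' := by
    ext g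
    simp [Finsupp.equivMapDomain_apply]
  map_add' x y := by
    ext g
    simp [Finsupp.equivMapDomain_apply]

lemma shiftOne_apply (γ : Γ) (x : Γ →₀ V) (g : Γ) : shiftOne Γ V γ x g = x (γ⁻¹ * g) := rfl

/-- Left translation of finitely supported functions. -/
noncomputable def shiftEnd : Γ →* AddMonoid.End (Γ →₀ V) where
  toFun γ := shiftOne Γ V γ
  map_one' := by
    apply AddMonoidHom.ext
    intro x
    ext g
    change x ((1 : Γ)⁻¹ * g) = x g
    rw [inv_one, one_mul]
  map_mul' γ δ := by
    apply AddMonoidHom.ext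
    intro x
    ext g
    change x ((γ * δ)⁻¹ * g) = x (δ⁻¹ * (γ⁻¹ * g))
    rw [mul_inv_rev, mul_assoc]

lemma shiftEnd_apply (γ : Γ) (x : Γ →₀ V) (g : Γ) : shiftEnd Γ V γ x g = x (γ⁻¹ * g) := rfl

lemma shiftEnd_single (γ g : Γ) (v : V) :
    shiftEnd Γ V γ (Finsupp.single g v) = Finsupp.single (γ * g) v := by
  classical
  ext h
  rw [shiftEnd_apply, Finsupp.single_apply, Finsupp.single_apply]
  congr 1
  rw [eq_iff_iff]
  constructor
  · rintro rfl; group
  · rintro rfl; group

/-- The `ℤ(Γ)`-module of finitely supported functions `Γ → V` with the left translation. -/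
noncomputable abbrev shiftModule : Module (MonoidAlgebra ℤ Γ) (Γ →₀ V) :=
  Module.compHom (Γ →₀ V) (MonoidAlgebra.lift ℤ (AddMonoid.End (Γ →₀ V)) Γ (shiftEnd Γ V)).toRingHom

lemma single_smul (γ : Γ) (n : ℤ) (x : Γ →₀ V) :
    letI := shiftModule Γ V
    (MonoidAlgebra.single γ n : MonoidAlgebra ℤ Γ) • x = n • shiftEnd Γ V γ x := by
  letI := shiftModule Γ V
  change (MonoidAlgebra.lift ℤ (AddMonoid.End (Γ →₀ V)) Γ (shiftEnd Γ V))
    (MonoidAlgebra.single γ n) x = _
  rw [MonoidAlgebra.lift_single]
  rfl

end Modules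

/-- An additive map commuting with the translations is linear over `ℤ(Γ)`. -/
noncomputable def toLinear {Γ : Type*} [Group Γ] {V W : Type*} [AddCommGroup V] [AddCommGroup W]
    (θ : (Γ →₀ V) →+ (Γ →₀ W)) (hθ : ∀ γ x, θ (shiftEnd Γ V γ x) = shiftEnd Γ W γ (θ x)) :
    letI := shiftModule Γ V
    letI := shiftModule Γ W
    (Γ →₀ V) →ₗ[MonoidAlgebra ℤ Γ] (Γ →₀ W) :=
  letI := shiftModule Γ V
  letI := shiftModule Γ W
  { toFun := θ
    map_add' := θ.map_add
    map_smul' := by
      intro r x
      simp only [RingHom.id_apply]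
      induction r using MonoidAlgebra.induction_linear with
      | zero => simp
      | add a b ha hb => rw [add_smul, add_smul, θ.map_add, ha, hb]
      | single γ n =>
        rw [single_smul, single_smul, map_zsmul, hθ] }

lemma theta_shift {Γ : Type*} [Group Γ] [DecidableEq Γ] (S : Finset Γ) {Y : Type*} [Fintype Y]
    [DecidableEq Y] (X : S → Finset Y) (p M : ℕ) (a : S × Y → ZMod p) (γ : Γ)
    (x : Γ →₀ (Fin M → ZMod p)) :
    theta S X p M a (shiftEnd Γ _ γ x) = shiftEnd Γ _ γ (theta S X p M a x) := by
  ext1 g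
  rw [theta_apply, shiftEnd_apply, theta_apply]
  apply Finset.sum_congr rfl
  intro s _
  rw [shiftEnd_apply, mul_assoc]

/-! ### The dual groups -/

lemma dual_metrizable (A : Type*) [AddCommGroup A] [Countable A] :
    ∃ ρ, IsCompatible (dualTopology A) ρ := by
  letI : TopologicalSpace (Dual A) := dualTopology A
  have hemb : IsEmbedding (fun (χ : Dual A) (a : A) => χ a) :=
    ⟨⟨rfl⟩, DFunLike.coe_injective⟩
  haveI : TopologicalSpace.MetrizableSpace (Dual A) := hemb.metrizableSpace
  exact ⟨(TopologicalSpace.metrizableSpaceMetric (Dual A)).toPseudoMetricSpace.toDist.dist,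
    TopologicalSpace.metrizableSpaceMetric (Dual A), rfl, fun _ _ => rfl⟩

lemma dual_compact (A : Type*) [AddCommGroup A] : @CompactSpace (Dual A) (dualTopology A) := by
  letI : TopologicalSpace (Dual A) := dualTopology A
  have hemb : IsEmbedding (fun (χ : Dual A) (a : A) => χ a) :=
    ⟨⟨rfl⟩, DFunLike.coe_injective⟩
  have hrange : Set.range (fun (χ : Dual A) (a : A) => χ a) =
      ⋂ (a : A) (b : A), {f : A → UnitAddCircle | f (a + b) = f a + f b} := by
    ext f
    simp only [Set.mem_range, Set.mem_iInter, Set.mem_ofPred_eq]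
    constructor
    · rintro ⟨χ, rfl⟩ a b
      exact χ.map_add a b
    · intro h
      exact ⟨AddMonoidHom.mk' f h, rfl⟩
  have hcl : IsClosed (Set.range (fun (χ : Dual A) (a : A) => χ a)) := by
    rw [hrange]
    refine isClosed_iInter fun a => isClosed_iInter fun b => ?_
    exact isClosed_eq (continuous_apply _) (by fun_prop)
  exact (IsClosedEmbedding.mk hemb hcl).compactSpace

lemma dual_closed (A : Type*) [AddCommGroup A] (a : A) (t : UnitAddCircle) :
    IsClosed[dualTopology A] {χ : Dual A | χ a = t} := by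
  letI : TopologicalSpace (Dual A) := dualTopology A
  have hc : Continuous (fun (χ : Dual A) => χ a) :=
    (continuous_apply a).comp continuous_induced_dom
  exact isClosed_eq hc continuous_const

section Coordinates

variable {Γ : Type*} [Group Γ] {V : Type*} [AddCommGroup V]

/-- The coordinates of an element of the dual group. -/
noncomputable def coord (g : Γ) (χ : Dual (Γ →₀ V)) : V →+ UnitAddCircle :=
  χ.comp (Finsupp.singleAddHom g)

lemma coord_inj (χ ψ : Dual (Γ →₀ V)) (h : ∀ g, coord g χ = coord g ψ) : χ = ψ := by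
  apply Finsupp.addHom_ext
  intro g v
  exact DFunLike.congr_fun (h g) v

lemma coord_act (g s : Γ) (χ : Dual (Γ →₀ V)) :
    letI := shiftModule Γ V
    coord g (dualAct Γ (Γ →₀ V) s χ) = coord (s⁻¹ * g) χ := by
  letI := shiftModule Γ V
  ext v
  change χ ((MonoidAlgebra.single s⁻¹ (1 : ℤ) : MonoidAlgebra ℤ Γ) • Finsupp.single g v) =
    χ (Finsupp.single (s⁻¹ * g) v)
  rw [single_smul, one_smul, shiftEnd_single]

/-- The element of the dual group with given coordinates. -/
noncomputable def mkDual (u : Γ → (V →+ UnitAddCircle)) : Dual (Γ →₀ V) :=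
  Finsupp.liftAddHom u

lemma coord_mk (u : Γ → (V →+ UnitAddCircle)) (g : Γ) : coord g (mkDual u) = u g := by
  ext v
  simp [coord, mkDual]

lemma coord_closed (g : Γ) (a : V →+ UnitAddCircle) :
    IsClosed[dualTopology (Γ →₀ V)] {χ : Dual (Γ →₀ V) | coord g χ = a} := by
  letI : TopologicalSpace (Dual (Γ →₀ V)) := dualTopology (Γ →₀ V)
  have : {χ : Dual (Γ →₀ V) | coord g χ = a} =
      ⋂ v : V, {χ : Dual (Γ →₀ V) | χ (Finsupp.single g v) = a v} := by
    ext χ
    simp only [Set.mem_ofPred_eq, Set.mem_iInter]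
    exact DFunLike.ext_iff
  rw [this]
  exact isClosed_iInter fun v => dual_closed _ _ _

end Coordinates

/-! ### The dual group of a finite group -/

lemma dual_finite_card (V : Type*) [AddCommGroup V] [Finite V] :
    Finite (V →+ UnitAddCircle) ∧ Nat.card (V →+ UnitAddCircle) ≤ Nat.card V := by
  classical
  haveI := Fintype.ofFinite V
  let f : (V →+ UnitAddCircle) → AddChar V ℂ := fun χ =>
    { toFun := fun v => ((AddCircle.toCircle (χ v) : Circle) : ℂ)
      map_zero_eq_one' := by simp
      map_add_eq_mul' := by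
        intro v w
        rw [map_add, AddCircle.toCircle_add]
        simp }
  have hf : Function.Injective f := by
    intro χ ψ h
    ext v
    have h1 := DFunLike.congr_fun h v
    have h2 : AddCircle.toCircle (χ v) = AddCircle.toCircle (ψ v) := Circle.ext h1
    exact AddCircle.injective_toCircle one_ne_zero h2
  haveI : Finite (AddChar V ℂ) := inferInstance
  refine ⟨Finite.of_injective f hf, ?_⟩
  have h1 := Nat.card_le_card_of_injective f hf
  have h2 : Nat.card (AddChar V ℂ) = Nat.card V := by
    rw [Nat.card_eq_fintype_card, Nat.card_eq_fintype_card, AddChar.card_eq]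
  omega

lemma card_le_dual (p M : ℕ) [NeZero p] :
    Nat.card (Fin M → ZMod p) ≤ Nat.card ((Fin M → ZMod p) →+ UnitAddCircle) := by
  classical
  haveI := (dual_finite_card (Fin M → ZMod p)).1
  let f : (Fin M → ZMod p) → ((Fin M → ZMod p) →+ UnitAddCircle) := fun u =>
    { toFun := fun v => ZMod.toAddCircle (∑ j, u j * v j)
      map_zero' := by simp
      map_add' := by
        intro v w
        rw [← map_add]
        congr 1
        rw [← Finset.sum_add_distrib]
        exact Finset.sum_congr rfl fun j _ => by simp [mul_add] }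
  apply Nat.card_le_card_of_injective f
  intro u w h
  ext j
  have h1 := DFunLike.congr_fun h (Pi.single j 1)
  have h2 : ZMod.toAddCircle (∑ i, u i * (Pi.single j (1 : ZMod p) : Fin M → ZMod p) i) =
      ZMod.toAddCircle (∑ i, w i * (Pi.single j (1 : ZMod p) : Fin M → ZMod p) i) := h1
  have h3 := ZMod.toAddCircle_injective p h2
  simpa [Pi.single_apply] using h3

end Pool.Agent.H299Sofic
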