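import Pool.Agent.H299_Sofic.Defs

/-!
# Bounds for the sofic entropy of full shifts
-/

set_option autoImplicit false

namespace Pool.Agent.H299Sofic

open Filter Topology Finset

section Compact

variable {Γ X K : Type*} [Group Γ] [MetricSpace X] [CompactSpace X] (E : Γ → X → K)

/-- Points with equal coordinates in a suitable finite set are close. -/
lemma close_of_agree [Finite K] (hclosed : ∀ g a, IsClosed {x | E g x = a})
    (hinj : ∀ x y, (∀ g, E g x = E g y) → x = y) (ε : ℝ) (hε : 0 < ε) :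
    ∃ Q : Finset Γ, ∀ x y, (∀ g ∈ Q, E g x = E g y) → dist x y < ε := by
  classical
  have hZ : ∀ g, IsClosed {q : X × X | E g q.1 = E g q.2} := by
    intro g
    have : {q : X × X | E g q.1 = E g q.2} = ⋃ a : K, {q : X × X | E g q.1 = a ∧ E g q.2 = a} := by
      ext q
      simp only [Set.mem_ofPred_eq, Set.mem_iUnion]
      constructor
      · intro h; exact ⟨E g q.2, h, rfl⟩
      · rintro ⟨a, h1, h2⟩; rw [h1, h2]
    rw [this]
    apply isClosed_iUnion_of_finite
    intro a
    exact ((hclosed g a).preimage continuous_fst).inter ((hclosed g a).preimage continuous_snd)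
  have hK : IsCompact {q : X × X | ε ≤ dist q.1 q.2} := by
    apply IsClosed.isCompact
    exact isClosed_le continuous_const (continuous_fst.dist continuous_snd)
  have hemp : {q : X × X | ε ≤ dist q.1 q.2} ∩ ⋂ g : Γ, {q : X × X | E g q.1 = E g q.2} = ∅ := by
    ext q
    simp only [Set.mem_inter_iff, Set.mem_ofPred_eq, Set.mem_iInter, Set.mem_empty_iff_false, iff_false,
      not_and]
    intro h1 h2
    have := hinj q.1 q.2 h2
    rw [this, dist_self] at h1
    linarith
  obtain ⟨Q, hQ⟩ := hK.elim_finite_subfamily_closed _ hZ hemp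
  refine ⟨Q, fun x y h => ?_⟩
  by_contra hcon
  push Not at hcon
  have : ((x, y) : X × X) ∈ {q : X × X | ε ≤ dist q.1 q.2} ∩ ⋂ g ∈ Q, {q : X × X | E g q.1 = E g q.2} := by
    refine ⟨hcon, ?_⟩
    simp only [Set.mem_iInter, Set.mem_ofPred_eq]
    exact h
  rw [hQ] at this
  exact this

/-- Close points have the same coordinate. -/
lemma agree_of_close [Finite K] (hclosed : ∀ g a, IsClosed {x | E g x = a}) (g : Γ) :
    ∃ c > 0, ∀ x y, dist x y < c → E g x = E g y := by
  classical
  have hopen : ∀ a : K, IsOpen {x | E g x = a} := by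
    intro a
    have : {x | E g x = a} = (⋃ b : {b : K // b ≠ a}, {x | E g x = (b : K)})ᶜ := by
      ext x
      simp only [Set.mem_ofPred_eq, Set.mem_compl_iff, Set.mem_iUnion, not_exists]
      constructor
      · rintro h ⟨b, hb⟩ h2
        exact hb (h2.symm.trans h)
      · intro h
        by_contra hcon
        exact h ⟨E g x, hcon⟩ rfl
    rw [this]
    apply IsClosed.isOpen_compl (self := ?_)
    apply isClosed_iUnion_of_finite
    intro b
    exact hclosed g b
  obtain ⟨c, hc, h⟩ := lebesgue_number_lemma_of_metric (s := (Set.univ : Set X)) isCompact_univ hopen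
    (fun x _ => Set.mem_iUnion.mpr ⟨E g x, rfl⟩)
  refine ⟨c, hc, fun x y hxy => ?_⟩
  obtain ⟨a, ha⟩ := h x (Set.mem_univ x)
  have h1 : E g x = a := ha (Metric.mem_ball_self hc)
  have h2 : E g y = a := ha (by rw [Metric.mem_ball, dist_comm]; exact hxy)
  rw [h1, h2]

/-- A finite partition into sets of small diameter. -/
lemma exists_label (X : Type*) [MetricSpace X] [CompactSpace X] (ε : ℝ) (hε : 0 < ε) :
    ∃ (N : ℕ) (l : X → Fin N), ∀ x y, l x = l y → dist x y < ε := by
  classical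
  obtain ⟨t, -, htf, ht⟩ := finite_cover_balls_of_compact (s := (Set.univ : Set X)) isCompact_univ
    (half_pos hε)
  haveI : Finite t := htf
  obtain ⟨N, ⟨e⟩⟩ := Finite.exists_equiv_fin t
  have hch : ∀ x : X, ∃ a : t, x ∈ Metric.ball (a : X) (ε / 2) := by
    intro x
    have := ht (Set.mem_univ x)
    simp only [Set.mem_iUnion] at this
    obtain ⟨a, ha, hxa⟩ := this
    exact ⟨⟨a, ha⟩, hxa⟩
  choose f hf using hch
  refine ⟨N, fun x => e (f x), fun x y h => ?_⟩
  have h1 : f x = f y := e.injective h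
  have h2 := hf x
  have h3 := hf y
  rw [Metric.mem_ball] at h2 h3
  rw [h1] at h2
  calc dist x y ≤ dist x (f y) + dist y (f y) := dist_triangle_right _ _ _
    _ < ε / 2 + ε / 2 := add_lt_add h2 h3
    _ = ε := by ring

end Compact

/-- The number of labellings of few points. -/
lemma card_few (d N : ℕ) (x κ : ℝ) (hx0 : 0 < x) (hx1 : x ≤ 1) :
    (((univ : Finset (Fin d → Option (Fin N))).filter
      (fun l => ((univ.filter (fun i => l i ≠ none)).card : ℝ) ≤ κ * d)).card : ℝ) * x ^ (κ * d) ≤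
      (1 + N * x) ^ d := by
  classical
  let w : Option (Fin N) → ℝ := fun o => if o = none then 1 else x
  have hw0 : ∀ o, 0 ≤ w o := by
    intro o
    by_cases h : o = none
    · simp [w, h]
    · simp [w, h, hx0.le]
  have h1 : ∑ o, w o = 1 + N * x := by
    rw [Fintype.sum_option]
    simp [w]
  have h2 : (1 + N * x) ^ d = ∑ l : Fin d → Option (Fin N), ∏ i, w (l i) := by
    rw [← h1, Fintype.sum_pow]
  have h3 : ∀ l : Fin d → Option (Fin N), ∏ i, w (l i) = x ^ ((univ.filter (fun i => l i ≠ none)).card) := by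
    intro l
    rw [← Finset.prod_filter_mul_prod_filter_not univ (fun i => l i ≠ none)]
    rw [Finset.prod_congr rfl (g := fun _ => x), Finset.prod_const]
    · rw [Finset.prod_congr rfl (g := fun _ => (1 : ℝ)), Finset.prod_const_one, mul_one]
      intro i hi
      simp only [mem_filter, mem_univ, true_and, not_not] at hi
      simp [w, hi]
    · intro i hi
      simp only [mem_filter, mem_univ, true_and] at hi
      simp [w, hi]
  rw [h2]
  set Λ : Finset (Fin d → Option (Fin N)) := univ.filter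
      (fun l => ((univ.filter (fun i => l i ≠ none)).card : ℝ) ≤ κ * d) with hΛ
  calc (Λ.card : ℝ) * x ^ (κ * d) = ∑ l ∈ Λ, x ^ (κ * d) := by
        rw [Finset.sum_const, nsmul_eq_mul]
    _ ≤ ∑ l ∈ Λ, ∏ i, w (l i) := by
        apply Finset.sum_le_sum
        intro l hl
        rw [hΛ, mem_filter] at hl
        rw [h3 l, ← Real.rpow_natCast]
        exact Real.rpow_le_rpow_of_exponent_ge hx0 hx1 hl.2
    _ ≤ _ := by
        apply Finset.sum_le_sum_of_subset_of_nonneg (filter_subset _ _)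
        intro l _ _
        exact Finset.prod_nonneg (fun i _ => hw0 _)


/-- Comparison of one term with a real number, from above. -/
lemma term_le {X : Type*} (ρ : X → X → ℝ) {d : ℕ} (hd : 1 ≤ d) (Z : Set (Fin d → X)) (ε c : ℝ)
    (h : ∀ T : Finset (Fin d → X), (∀ φ ∈ T, φ ∈ Z) →
      (∀ φ ∈ T, ∀ ψ ∈ T, φ ≠ ψ → ∃ i, ε ≤ ρ (φ i) (ψ i)) → (T.card : ℝ) ≤ Real.exp (c * d)) :
    (((d : ℝ)⁻¹ : ℝ) : EReal) * ENNReal.log (sepNumber ρ Z ε) ≤ (c : EReal) := by
  have hd0 : (0 : ℝ) < d := by exact_mod_cast hd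
  have h1 : sepNumber ρ Z ε ≤ ENNReal.ofReal (Real.exp (c * d)) := by
    unfold sepNumber
    refine iSup₂_le fun T hT => ?_
    have h2 := h T hT.1 hT.2
    rw [← ENNReal.ofReal_natCast]
    exact ENNReal.ofReal_le_ofReal h2
  have h2 : ENNReal.log (sepNumber ρ Z ε) ≤ ((c * d : ℝ) : EReal) := by
    have h3 := ENNReal.log_le_log h1
    rwa [ENNReal.log_ofReal_of_pos (Real.exp_pos _), Real.log_exp] at h3
  have h3 : (0 : EReal) ≤ (((d : ℝ)⁻¹ : ℝ) : EReal) := by
    exact_mod_cast (inv_pos.mpr hd0).le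
  calc (((d : ℝ)⁻¹ : ℝ) : EReal) * ENNReal.log (sepNumber ρ Z ε)
      ≤ (((d : ℝ)⁻¹ : ℝ) : EReal) * ((c * d : ℝ) : EReal) := mul_le_mul_of_nonneg_left h2 h3
    _ = (c : EReal) := by
        rw [← EReal.coe_mul]
        congr 1
        field_simp

/-- Comparison of one term with a real number, from below. -/
lemma le_term {X : Type*} (ρ : X → X → ℝ) {d : ℕ} (hd : 1 ≤ d) (Z : Set (Fin d → X)) (ε c : ℝ)
    (T : Finset (Fin d → X)) (hT1 : ∀ φ ∈ T, φ ∈ Z)
    (hT2 : ∀ φ ∈ T, ∀ ψ ∈ T, φ ≠ ψ → ∃ i, ε ≤ ρ (φ i) (ψ i)) (h : Real.exp (c * d) ≤ (T.card : ℝ)) :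
    (c : EReal) ≤ (((d : ℝ)⁻¹ : ℝ) : EReal) * ENNReal.log (sepNumber ρ Z ε) := by
  have hd0 : (0 : ℝ) < d := by exact_mod_cast hd
  have h1 : ENNReal.ofReal (Real.exp (c * d)) ≤ sepNumber ρ Z ε := by
    unfold sepNumber
    refine le_trans ?_ (le_iSup₂ (f := fun (T : Finset (Fin d → X)) (_ : (∀ φ ∈ T, φ ∈ Z) ∧
      ∀ φ ∈ T, ∀ ψ ∈ T, φ ≠ ψ → ∃ i, ε ≤ ρ (φ i) (ψ i)) => (T.card : ENNReal)) T ⟨hT1, hT2⟩)
    rw [← ENNReal.ofReal_natCast]
    exact ENNReal.ofReal_le_ofReal h
  have h2 : ((c * d : ℝ) : EReal) ≤ ENNReal.log (sepNumber ρ Z ε) := by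
    have h3 := ENNReal.log_le_log h1
    rwa [ENNReal.log_ofReal_of_pos (Real.exp_pos _), Real.log_exp] at h3
  have h3 : (0 : EReal) ≤ (((d : ℝ)⁻¹ : ℝ) : EReal) := by
    exact_mod_cast (inv_pos.mpr hd0).le
  calc (c : EReal) = (((d : ℝ)⁻¹ : ℝ) : EReal) * ((c * d : ℝ) : EReal) := by
        rw [← EReal.coe_mul]
        congr 1
        field_simp
    _ ≤ _ := mul_le_mul_of_nonneg_left h2 h3

/-- The entropy of an action with a fixed point is at least `0`. -/
theorem soficEntropy_nonneg {Γ X : Type*} [MetricSpace X] (act : Γ → X → X) (x₀ : X)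
    (hx₀ : ∀ s, act s x₀ = x₀) (k : ℕ → ℕ) (π : ∀ n, Γ → Equiv.Perm (Fin (k n)))
    (hk : Tendsto k atTop atTop) : 0 ≤ soficEntropy act dist k π := by
  unfold soficEntropy
  refine le_trans ?_ (le_iSup₂ (f := fun (ε : ℝ) (_ : 0 < ε) => ⨅ (F : Finset Γ) (δ : ℝ) (_ : 0 < δ),
    limsup (fun n => (((k n : ℝ)⁻¹ : ℝ) : EReal) * ENNReal.log (sepNumber dist (Map act dist F δ (π n)) ε))
    atTop) 1 one_pos)
  refine le_iInf fun F => le_iInf₂ fun δ hδ => ?_
  apply le_limsup_of_frequently_le'
  apply Eventually.frequently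
  filter_upwards [hk.eventually_ge_atTop 1] with n hn
  refine le_term dist hn _ 1 0 {fun _ => x₀} ?_ ?_ ?_
  · intro φ hφ s _
    rw [mem_singleton] at hφ
    subst hφ
    simp only [rhoTwo, hx₀, dist_self]
    simpa using hδ
  · intro φ hφ ψ hψ h
    rw [mem_singleton] at hφ hψ
    exact absurd (hφ.trans hψ.symm) h
  · simp

/-- The entropy of a full shift is at most the logarithm of the size of the alphabet. -/
theorem soficEntropy_le {Γ X K : Type*} [Group Γ] [MetricSpace X] [CompactSpace X] [Fintype K] [Nonempty K]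
    (act : Γ → X → X) (E : Γ → X → K) (hclosed : ∀ g a, IsClosed {x | E g x = a})
    (hinj : ∀ x y, (∀ g, E g x = E g y) → x = y) (hact : ∀ g s x, E g (act s x) = E (s⁻¹ * g) x)
    (k : ℕ → ℕ) (π : ∀ n, Γ → Equiv.Perm (Fin (k n))) (hk : Tendsto k atTop atTop) :
    soficEntropy act dist k π ≤ (Real.log (Fintype.card K) : EReal) := by
  classical
  unfold soficEntropy
  refine iSup₂_le fun ε hε => ?_
  rw [← EReal.le_of_forall_lt_iff_le]
  intro c hc
  have hc' : Real.log (Fintype.card K) < c := by exact_mod_cast hc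
  set η := c - Real.log (Fintype.card K) with hη
  have hη0 : 0 < η := by linarith
  obtain ⟨Q, hQ⟩ := close_of_agree E hclosed hinj ε hε
  obtain ⟨N, l, hl⟩ := exists_label X ε hε
  obtain ⟨c₀, hc₀, hagree⟩ := agree_of_close E hclosed (1 : Γ)
  -- the parameters
  set x : ℝ := min 1 (η / (2 * (N + 1))) with hx
  have hx0 : 0 < x := lt_min one_pos (by positivity)
  have hx1 : x ≤ 1 := min_le_left _ _
  have hNx : N * x ≤ η / 2 := by
    calc (N : ℝ) * x ≤ N * (η / (2 * (N + 1))) := by gcongr; exact min_le_right _ _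
      _ = (N / (N + 1)) * (η / 2) := by field_simp
      _ ≤ 1 * (η / 2) := by
          gcongr
          rw [div_le_one (by positivity)]
          linarith
      _ = η / 2 := one_mul _
  have hlogx : Real.log x ≤ 0 := Real.log_nonpos hx0.le hx1
  set κ : ℝ := η / (2 * (1 - Real.log x)) with hκ
  have hκ0 : 0 < κ := by
    apply div_pos hη0
    linarith
  have hκx : κ * (- Real.log x) ≤ η / 2 := by
    have h1 : κ * (1 - Real.log x) = η / 2 := by
      rw [hκ]
      have : (1 - Real.log x) ≠ 0 := by linarith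
      field_simp
    nlinarith
  set F : Finset Γ := Q.image (fun g => g⁻¹) with hF
  set δ : ℝ := c₀ * Real.sqrt (κ / (F.card + 1)) with hδ
  have hδ0 : 0 < δ := by positivity
  have hδ2 : δ ^ 2 * (F.card + 1) = c₀ ^ 2 * κ := by
    rw [hδ, mul_pow, Real.sq_sqrt (by positivity)]
    field_simp
  refine le_trans (iInf_le _ F) (le_trans (iInf₂_le δ hδ0) ?_)
  apply limsup_le_of_le
  · isBoundedDefault
  filter_upwards [hk.eventually_ge_atTop 1] with n hn
  revert hn
  generalize π n = σ
  revert σ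
  generalize k n = d
  intro σ hn
  refine term_le dist hn _ ε c ?_
  intro T hT1 hT2
  have hd0 : (0 : ℝ) < d := by exact_mod_cast hn
  -- the bad points
  let Bad : (Fin d → X) → Finset (Fin d) := fun φ =>
    univ.filter (fun i => ∃ s ∈ F, E 1 (φ (σ s i)) ≠ E 1 (act s (φ i)))
  have hBad : ∀ φ ∈ T, ((Bad φ).card : ℝ) ≤ κ * d := by
    intro φ hφ
    have h1 : ∀ s ∈ F, (((univ : Finset (Fin d)).filter
        (fun i => E 1 (φ (σ s i)) ≠ E 1 (act s (φ i)))).card : ℝ) ≤ δ ^ 2 * d / c₀ ^ 2 := by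
      intro s hs
      have h2 : rhoTwo dist (fun i => φ (σ s i)) (fun i => act s (φ i)) < δ := hT1 φ hφ s hs
      unfold rhoTwo at h2
      have h3 : (∑ i, dist (φ (σ s i)) (act s (φ i)) ^ 2) / (d : ℝ) < δ ^ 2 := by
        have h4 := Real.sqrt_lt_sqrt (x := (∑ i, dist (φ (σ s i)) (act s (φ i)) ^ 2) / (d : ℝ))
          (y := δ ^ 2)
        by_contra hcon
        push Not at hcon
        have h5 : δ ≤ Real.sqrt ((∑ i, dist (φ (σ s i)) (act s (φ i)) ^ 2) / (d : ℝ)) := by
          apply Real.le_sqrt_of_sq_le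
          exact hcon
        linarith
      rw [div_lt_iff₀ hd0] at h3
      rw [le_div_iff₀ (by positivity)]
      calc (((univ : Finset (Fin d)).filter
          (fun i => E 1 (φ (σ s i)) ≠ E 1 (act s (φ i)))).card : ℝ) * c₀ ^ 2
          = ∑ i ∈ (univ : Finset (Fin d)).filter
              (fun i => E 1 (φ (σ s i)) ≠ E 1 (act s (φ i))), c₀ ^ 2 := by
            rw [Finset.sum_const, nsmul_eq_mul]
        _ ≤ ∑ i ∈ (univ : Finset (Fin d)).filter
              (fun i => E 1 (φ (σ s i)) ≠ E 1 (act s (φ i))), dist (φ (σ s i)) (act s (φ i)) ^ 2 := by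
            apply Finset.sum_le_sum
            intro i hi
            rw [mem_filter] at hi
            have h6 : c₀ ≤ dist (φ (σ s i)) (act s (φ i)) := by
              by_contra hcon
              push Not at hcon
              exact hi.2 (hagree _ _ hcon)
            gcongr
        _ ≤ ∑ i, dist (φ (σ s i)) (act s (φ i)) ^ 2 := by
            apply Finset.sum_le_sum_of_subset_of_nonneg (filter_subset _ _)
            intro i _ _
            positivity
        _ ≤ δ ^ 2 * d := h3.le
    have h7 : Bad φ ⊆ F.biUnion (fun s => (univ : Finset (Fin d)).filter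
        (fun i => E 1 (φ (σ s i)) ≠ E 1 (act s (φ i)))) := by
      intro i hi
      simp only [Bad, mem_filter, mem_univ, true_and] at hi
      obtain ⟨s, hs, hi⟩ := hi
      rw [mem_biUnion]
      exact ⟨s, hs, by simpa using hi⟩
    have h8 : (Bad φ).card ≤ ∑ s ∈ F, ((univ : Finset (Fin d)).filter
        (fun i => E 1 (φ (σ s i)) ≠ E 1 (act s (φ i)))).card :=
      (Finset.card_le_card h7).trans Finset.card_biUnion_le
    calc ((Bad φ).card : ℝ) ≤ ∑ s ∈ F, (((univ : Finset (Fin d)).filter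
        (fun i => E 1 (φ (σ s i)) ≠ E 1 (act s (φ i)))).card : ℝ) := by exact_mod_cast h8
      _ ≤ ∑ s ∈ F, δ ^ 2 * d / c₀ ^ 2 := Finset.sum_le_sum h1
      _ = F.card * (δ ^ 2 * d / c₀ ^ 2) := by rw [Finset.sum_const, nsmul_eq_mul]
      _ ≤ (F.card + 1) * (δ ^ 2 * d / c₀ ^ 2) := by gcongr; linarith
      _ = (δ ^ 2 * (F.card + 1)) * d / c₀ ^ 2 := by ring
      _ = κ * d := by rw [hδ2]; field_simp
  -- the injection
  let Λ : Finset (Fin d → Option (Fin N)) := univ.filter
      (fun l => ((univ.filter (fun i => l i ≠ none)).card : ℝ) ≤ κ * d)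
  let code : (Fin d → X) → (Fin d → K) × (Fin d → Option (Fin N)) := fun φ =>
    (fun i => E 1 (φ i), fun i => if i ∈ Bad φ then some (l (φ i)) else none)
  have hcode : ∀ φ ∈ T, code φ ∈ (univ : Finset (Fin d → K)) ×ˢ Λ := by
    intro φ hφ
    rw [mem_product]
    refine ⟨mem_univ _, ?_⟩
    simp only [Λ, mem_filter, mem_univ, true_and, code]
    have h1 : (univ.filter (fun i => (if i ∈ Bad φ then some (l (φ i)) else none) ≠ none)) = Bad φ := by
      ext i
      simp only [mem_filter, mem_univ, true_and]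
      by_cases hi : i ∈ Bad φ
      · simp [hi]
      · simp [hi]
    rw [h1]
    exact hBad φ hφ
  have hcinj : Set.InjOn code (T : Set (Fin d → X)) := by
    intro φ hφ ψ hψ h
    by_contra hne
    obtain ⟨i, hi⟩ := hT2 φ hφ ψ hψ hne
    have h1 : ∀ j, E 1 (φ j) = E 1 (ψ j) := fun j => congrFun (congrArg Prod.fst h) j
    have h2 : ∀ j, (if j ∈ Bad φ then some (l (φ j)) else none) =
        (if j ∈ Bad ψ then some (l (ψ j)) else none) := fun j => congrFun (congrArg Prod.snd h) j
    have h3 := h2 i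
    by_cases hb1 : i ∈ Bad φ
    · by_cases hb2 : i ∈ Bad ψ
      · simp only [hb1, hb2, if_true, Option.some.injEq] at h3
        have := hl _ _ h3
        linarith
      · simp [hb1, hb2] at h3
    · by_cases hb2 : i ∈ Bad ψ
      · simp [hb1, hb2] at h3
      · have h4 : dist (φ i) (ψ i) < ε := by
          apply hQ
          intro g hg
          have hs : g⁻¹ ∈ F := mem_image_of_mem _ hg
          simp only [Bad, mem_filter, mem_univ, true_and, not_exists, not_and, not_not] at hb1 hb2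
          have h5 := hb1 g⁻¹ hs
          have h6 := hb2 g⁻¹ hs
          rw [hact, inv_inv, mul_one] at h5 h6
          rw [← h5, ← h6]
          exact h1 _
        linarith
  have hcard : T.card ≤ (Fintype.card K) ^ d * Λ.card := by
    have h1 := Finset.card_le_card_of_injOn code hcode hcinj
    rw [Finset.card_product] at h1
    simpa using h1
  have hfew := card_few d N x κ hx0 hx1
  have hK1 : (1 : ℝ) ≤ Fintype.card K := by exact_mod_cast Fintype.card_pos
  have hxr : 0 < x ^ (κ * d) := Real.rpow_pos_of_pos hx0 _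
  have hΛ : (Λ.card : ℝ) ≤ (1 + N * x) ^ d / x ^ (κ * d) := by
    rw [le_div_iff₀ hxr]
    exact hfew
  have hN1 : (0 : ℝ) < 1 + N * x := by positivity
  have hpw : ∀ z : ℝ, 0 < z → z ^ d = Real.exp (d * Real.log z) := by
    intro z hz
    rw [mul_comm, Real.exp_mul, Real.exp_log hz, Real.rpow_natCast]
  calc (T.card : ℝ) ≤ (Fintype.card K : ℝ) ^ d * Λ.card := by exact_mod_cast hcard
    _ ≤ (Fintype.card K : ℝ) ^ d * ((1 + N * x) ^ d / x ^ (κ * d)) := by gcongr
    _ = Real.exp (d * Real.log (Fintype.card K) + (d * Real.log (1 + N * x) - (κ * d) * Real.log x)) := by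
        rw [Real.exp_add, Real.exp_sub, hpw _ (by linarith : (0 : ℝ) < Fintype.card K), hpw _ hN1,
          Real.rpow_def_of_pos hx0, mul_comm (Real.log x)]
    _ ≤ Real.exp (c * d) := by
        apply Real.exp_le_exp.mpr
        have h1 : Real.log (1 + N * x) ≤ N * x := by
          have := Real.log_le_sub_one_of_pos hN1
          linarith
        have h2 : d * Real.log (Fintype.card K) + (d * Real.log (1 + N * x) - (κ * d) * Real.log x) =
            d * (Real.log (Fintype.card K) + Real.log (1 + N * x) + κ * (- Real.log x)) := by ring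
        have h3 : Real.log (Fintype.card K) + Real.log (1 + N * x) + κ * (- Real.log x) ≤ c := by
          linarith
        rw [h2, mul_comm c]
        gcongr

/-- The entropy of a full shift is at least the logarithm of the size of the alphabet. -/
theorem le_soficEntropy {Γ X K : Type*} [Group Γ] [MetricSpace X] [CompactSpace X] [Fintype K] [Nonempty K]
    (act : Γ → X → X) (E : Γ → X → K) (hclosed : ∀ g a, IsClosed {x | E g x = a})
    (hinj : ∀ x y, (∀ g, E g x = E g y) → x = y) (hact : ∀ g s x, E g (act s x) = E (s⁻¹ * g) x)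
    (mk : (Γ → K) → X) (hmk : ∀ u g, E g (mk u) = u g)
    (k : ℕ → ℕ) (π : ∀ n, Γ → Equiv.Perm (Fin (k n))) (hk : Tendsto k atTop atTop)
    (hmul : ∀ s t : Γ, Tendsto (fun n =>
      ((Finset.univ.filter (fun i => π n (s * t) i ≠ π n s (π n t i))).card : ℝ) / (k n : ℝ)) atTop (nhds 0)) :
    (Real.log (Fintype.card K) : EReal) ≤ soficEntropy act dist k π := by
  classical
  obtain ⟨c₀, hc₀, hagree⟩ := agree_of_close E hclosed (1 : Γ)
  obtain ⟨D, hD⟩ : ∃ D : ℝ, ∀ x y : X, dist x y ≤ D := by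
    obtain ⟨D, hD⟩ := Metric.isBounded_iff.mp (isCompact_univ (X := X)).isBounded
    exact ⟨D, fun x y => hD (Set.mem_univ _) (Set.mem_univ _)⟩
  unfold soficEntropy
  refine le_trans ?_ (le_iSup₂ (f := fun (ε : ℝ) (_ : 0 < ε) => ⨅ (F : Finset Γ) (δ : ℝ) (_ : 0 < δ),
    limsup (fun n => (((k n : ℝ)⁻¹ : ℝ) : EReal) * ENNReal.log (sepNumber dist (Map act dist F δ (π n)) ε))
    atTop) c₀ hc₀)
  refine le_iInf fun F => le_iInf₂ fun δ hδ => ?_
  apply le_limsup_of_frequently_le'
  apply Eventually.frequently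
  obtain ⟨Q, hQ⟩ := close_of_agree E hclosed hinj (δ / 2) (by positivity)
  -- the proportion of bad points
  have hlim : Tendsto (fun n => ∑ s ∈ F, ∑ g ∈ Q,
      (((Finset.univ.filter (fun i => π n (g⁻¹ * s) i ≠ π n g⁻¹ (π n s i))).card : ℝ) / (k n : ℝ)) * D ^ 2)
      atTop (nhds (∑ s ∈ F, ∑ g ∈ Q, 0 * D ^ 2)) :=
    tendsto_finset_sum _ fun s _ => tendsto_finset_sum _ fun g _ => (hmul g⁻¹ s).mul_const _
  have hlim' : Tendsto (fun n => ∑ s ∈ F, ∑ g ∈ Q,
      (((Finset.univ.filter (fun i => π n (g⁻¹ * s) i ≠ π n g⁻¹ (π n s i))).card : ℝ) / (k n : ℝ)) * D ^ 2)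
      atTop (nhds 0) := by simpa using hlim
  have hev : ∀ᶠ n in atTop, ∑ s ∈ F, ∑ g ∈ Q,
      (((Finset.univ.filter (fun i => π n (g⁻¹ * s) i ≠ π n g⁻¹ (π n s i))).card : ℝ) / (k n : ℝ)) * D ^ 2 <
        δ ^ 2 / 2 := hlim'.eventually_lt_const (by positivity)
  filter_upwards [hk.eventually_ge_atTop 1, hev] with n hn hsum
  revert hn hsum
  generalize π n = σ
  revert σ
  generalize k n = d
  intro σ hn hsum
  have hd0 : (0 : ℝ) < d := by exact_mod_cast hn
  let φ : (Fin d → K) → (Fin d → X) := fun y i => mk (fun g => y (σ g⁻¹ i))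
  have hφ1 : ∀ y i g, E g (φ y i) = y (σ g⁻¹ i) := fun y i g => hmk _ _
  have hφinj : Function.Injective φ := by
    intro y y' h
    funext j
    have h1 : E 1 (φ y ((σ (1 : Γ)⁻¹).symm j)) = E 1 (φ y' ((σ (1 : Γ)⁻¹).symm j)) := by rw [h]
    rw [hφ1, hφ1] at h1
    simpa using h1
  refine le_term dist hn _ c₀ _ (univ.image φ) ?_ ?_ ?_
  · intro ψ hψ s hs
    obtain ⟨y, -, rfl⟩ := mem_image.mp hψ
    -- the bad points
    set B : Finset (Fin d) := Q.biUnion (fun g => univ.filter (fun i => σ (g⁻¹ * s) i ≠ σ g⁻¹ (σ s i))) with hB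
    have hgood : ∀ i, i ∉ B → dist (φ y (σ s i)) (act s (φ y i)) < δ / 2 := by
      intro i hi
      apply hQ
      intro g hg
      rw [hφ1, hact, hφ1]
      simp only [hB, mem_biUnion, mem_filter, mem_univ, true_and, not_exists, not_and, not_not] at hi
      have h1 := hi g hg
      rw [mul_inv_rev, inv_inv, h1]
    have hBsum : (B.card : ℝ) * D ^ 2 / d < δ ^ 2 / 2 := by
      have h1 : (B.card : ℝ) ≤ ∑ g ∈ Q,
          ((univ.filter (fun i => σ (g⁻¹ * s) i ≠ σ g⁻¹ (σ s i))).card : ℝ) := by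
        exact_mod_cast Finset.card_biUnion_le
      calc (B.card : ℝ) * D ^ 2 / d ≤ (∑ g ∈ Q,
          ((univ.filter (fun i => σ (g⁻¹ * s) i ≠ σ g⁻¹ (σ s i))).card : ℝ)) * D ^ 2 / d := by gcongr
        _ = ∑ g ∈ Q, (((univ.filter (fun i => σ (g⁻¹ * s) i ≠ σ g⁻¹ (σ s i))).card : ℝ) / d) * D ^ 2 := by
            rw [Finset.sum_mul, Finset.sum_div]
            apply Finset.sum_congr rfl
            intro g _
            ring
        _ ≤ ∑ s ∈ F, ∑ g ∈ Q,
            (((univ.filter (fun i => σ (g⁻¹ * s) i ≠ σ g⁻¹ (σ s i))).card : ℝ) / d) * D ^ 2 := by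
            apply Finset.single_le_sum (f := fun s => ∑ g ∈ Q,
              (((univ.filter (fun i => σ (g⁻¹ * s) i ≠ σ g⁻¹ (σ s i))).card : ℝ) / d) * D ^ 2) _ hs
            intro t _
            apply Finset.sum_nonneg
            intro g _
            positivity
        _ < _ := hsum
    unfold rhoTwo
    rw [Real.sqrt_lt' hδ]
    have h2 : ∑ i, dist (φ y (σ s i)) (act s (φ y i)) ^ 2 ≤ d * (δ / 2) ^ 2 + B.card * D ^ 2 := by
      calc ∑ i, dist (φ y (σ s i)) (act s (φ y i)) ^ 2
          ≤ ∑ i, ((δ / 2) ^ 2 + if i ∈ B then D ^ 2 else 0) := by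
            apply Finset.sum_le_sum
            intro i _
            by_cases hi : i ∈ B
            · simp only [hi, if_true]
              have h3 : dist (φ y (σ s i)) (act s (φ y i)) ^ 2 ≤ D ^ 2 := by
                have := hD (φ y (σ s i)) (act s (φ y i))
                gcongr
              have h4 : 0 ≤ (δ / 2) ^ 2 := by positivity
              linarith
            · simp only [hi, if_false, add_zero]
              have := (hgood i hi).le
              gcongr
        _ = d * (δ / 2) ^ 2 + B.card * D ^ 2 := by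
            rw [Finset.sum_add_distrib, Finset.sum_const, nsmul_eq_mul, card_univ, Fintype.card_fin]
            congr 1
            rw [← Finset.sum_filter, Finset.sum_const, nsmul_eq_mul]
            have h5 : (univ.filter (fun i => i ∈ B)) = B := by
              ext i
              simp
            rw [h5]
    calc (∑ i, dist (φ y (σ s i)) (act s (φ y i)) ^ 2) / (d : ℝ)
        ≤ (d * (δ / 2) ^ 2 + B.card * D ^ 2) / d := by gcongr
      _ = (δ / 2) ^ 2 + B.card * D ^ 2 / d := by field_simp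
      _ < (δ / 2) ^ 2 + δ ^ 2 / 2 := by linarith
      _ ≤ δ ^ 2 := by nlinarith
  · intro ψ hψ ψ' hψ' hne
    obtain ⟨y, -, rfl⟩ := mem_image.mp hψ
    obtain ⟨y', -, rfl⟩ := mem_image.mp hψ'
    have h1 : y ≠ y' := fun h => hne (h ▸ rfl)
    obtain ⟨j, hj⟩ := Function.ne_iff.mp h1
    refine ⟨(σ (1 : Γ)⁻¹).symm j, ?_⟩
    by_contra hcon
    push Not at hcon
    have h2 := hagree _ _ hcon
    rw [hφ1, hφ1] at h2
    exact hj (by simpa using h2)
  · rw [Finset.card_image_of_injective _ hφinj, card_univ, Fintype.card_fun, Fintype.card_fin]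
    have hK1 : (1 : ℝ) ≤ Fintype.card K := by exact_mod_cast Fintype.card_pos
    rw [Real.exp_mul, Real.exp_log (by linarith), Real.rpow_natCast]
    push_cast
    exact le_rfl

end Pool.Agent.H299Sofic
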