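import Mathlib

/-!
# A family of subsets with large private parts

For every finite index set `S` there is a finite set `Y` with subsets `X s`, `s ∈ S`, such that for all
`j ∈ J ⊆ S` the part of `X j` outside the union of the other `X i`, `i ∈ J`, has at least
`|Y| / (8 (R + 1) |J|)` elements, where `2 |S| ≤ 2 ^ R`.
-/

set_option autoImplicit false

namespace Pool.Agent.H299Sofic

open Finset

/-- The sets of the family. -/
def fam (S : Type*) [Fintype S] [DecidableEq S] (R : ℕ) (s : S) :
    Finset (Fin (R + 1) × (S → Fin (2 ^ R))) :=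
  univ.filter (fun y => ((y.2 s : Fin (2 ^ R)) : ℕ) < 2 ^ (R - (y.1 : ℕ)))

lemma card_fin_lt (N a : ℕ) (h : a ≤ N) :
    ((univ : Finset (Fin N)).filter (fun x : Fin N => (x : ℕ) < a)).card = a := by
  have : ((univ : Finset (Fin N)).filter (fun x : Fin N => (x : ℕ) < a)) =
      (univ : Finset (Fin a)).map (Fin.castLEEmb h) := by
    ext x
    simp only [mem_filter, mem_univ, true_and, mem_map]
    constructor
    · intro hx
      exact ⟨⟨x, hx⟩, rfl⟩
    · rintro ⟨y, rfl⟩
      exact y.2
  rw [this]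
  simp

lemma card_fin_not_lt (N a : ℕ) (h : a ≤ N) :
    ((univ : Finset (Fin N)).filter (fun x : Fin N => ¬ ((x : ℕ) < a))).card = N - a := by
  have h1 := Finset.card_filter_add_card_filter_not (s := (univ : Finset (Fin N)))
    (fun x : Fin N => (x : ℕ) < a)
  rw [card_fin_lt N a h] at h1
  simp only [card_univ, Fintype.card_fin] at h1
  omega

lemma card_priv (S : Type*) [Fintype S] [DecidableEq S] (N a : ℕ) (h : a ≤ N) (J : Finset S) (j : S)
    (hj : j ∈ J) :
    ((univ : Finset (S → Fin N)).filter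
      (fun f => ((f j : Fin N) : ℕ) < a ∧ ∀ i ∈ J.erase j, ¬ ((f i : ℕ) < a))).card =
      a * (N - a) ^ (J.card - 1) * N ^ (Fintype.card S - J.card) := by
  classical
  let P : S → Finset (Fin N) := fun s =>
    if s = j then univ.filter (fun x : Fin N => (x : ℕ) < a)
    else if s ∈ J then univ.filter (fun x : Fin N => ¬ ((x : ℕ) < a)) else univ
  have h1 : ((univ : Finset (S → Fin N)).filter
      (fun f => ((f j : Fin N) : ℕ) < a ∧ ∀ i ∈ J.erase j, ¬ ((f i : ℕ) < a))) =
      Fintype.piFinset P := by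
    ext f
    simp only [mem_filter, mem_univ, true_and, Fintype.mem_piFinset, P]
    constructor
    · rintro ⟨h1, h2⟩ s
      by_cases hs : s = j
      · subst hs; simpa using h1
      · by_cases hs2 : s ∈ J
        · have := h2 s (mem_erase.mpr ⟨hs, hs2⟩)
          simp only [hs, hs2, if_false, if_true, mem_filter, mem_univ, true_and]
          exact this
        · simp [hs, hs2]
    · intro hf
      refine ⟨?_, ?_⟩
      · have := hf j
        simpa using this
      · intro i hi
        have h3 := hf i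
        rw [mem_erase] at hi
        simp only [hi.1, hi.2, if_false, if_true, mem_filter, mem_univ, true_and] at h3
        exact h3
  rw [h1, Fintype.card_piFinset]
  have h2 : ∏ s : S, (P s).card = (∏ s ∈ J, (P s).card) * ∏ s ∈ Jᶜ, (P s).card := by
    rw [Finset.prod_mul_prod_compl]
  rw [h2, ← Finset.mul_prod_erase J _ hj]
  have h3 : (P j).card = a := by
    simp only [P, if_true]
    exact card_fin_lt N a h
  have h4 : ∏ s ∈ J.erase j, (P s).card = (N - a) ^ (J.card - 1) := by
    rw [Finset.prod_congr rfl (g := fun _ => N - a), Finset.prod_const, Finset.card_erase_of_mem hj]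
    intro s hs
    rw [mem_erase] at hs
    simp only [P, hs.1, hs.2, if_false, if_true]
    exact card_fin_not_lt N a h
  have h5 : ∏ s ∈ Jᶜ, (P s).card = N ^ (Fintype.card S - J.card) := by
    rw [Finset.prod_congr rfl (g := fun _ => N), Finset.prod_const, Finset.card_compl]
    intro s hs
    rw [mem_compl] at hs
    have hsj : s ≠ j := fun h => hs (h ▸ hj)
    simp [P, hsj, hs]
  rw [h3, h4, h5]

/-- The size of the private parts. -/
lemma fam_spec (S : Type*) [Fintype S] [DecidableEq S] (R : ℕ) (hR : 2 * Fintype.card S ≤ 2 ^ R)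
    (J : Finset S) (j : S) (hj : j ∈ J) :
    Fintype.card (Fin (R + 1) × (S → Fin (2 ^ R))) ≤
      8 * (R + 1) * J.card * ((fam S R j) \ ((J.erase j).biUnion (fam S R))).card := by
  classical
  set k := J.card with hk
  have hk1 : 1 ≤ k := Finset.card_pos.mpr ⟨j, hj⟩
  have hkn : k ≤ Fintype.card S := Finset.card_le_univ J
  obtain ⟨r, hr1, hr2⟩ : ∃ r : ℕ, 2 * k ≤ 2 ^ r ∧ 2 ^ r < 4 * k := by
    refine ⟨Nat.clog 2 (2 * k), Nat.le_pow_clog (by norm_num) _, ?_⟩
    have h1 : 2 ^ (Nat.clog 2 (2 * k)).pred < 2 * k :=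
      Nat.pow_pred_clog_lt_self (by norm_num) (by omega)
    have h2 : 0 < Nat.clog 2 (2 * k) := Nat.clog_pos (by norm_num) (by omega)
    obtain ⟨m, hm⟩ := Nat.exists_eq_succ_of_ne_zero h2.ne'
    rw [hm] at h1 ⊢
    simp only [Nat.pred_succ] at h1
    rw [pow_succ]
    omega
  have hrR : r ≤ R := by
    by_contra hcon
    push Not at hcon
    have h1 : 2 ^ R * 2 ≤ 2 ^ r := by
      rw [← pow_succ]
      exact Nat.pow_le_pow_right (by norm_num) hcon
    have h2 : 2 ^ r < 2 * (2 ^ R) := by
      calc 2 ^ r < 4 * k := hr2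
        _ ≤ 4 * Fintype.card S := by omega
        _ ≤ 2 * 2 ^ R := by omega
    omega
  set N := 2 ^ R with hN
  set a := 2 ^ (R - r) with ha
  have haN : a * 2 ^ r = N := by rw [ha, hN, ← pow_add]; congr 1; omega
  have haN' : a ≤ N := by rw [← haN]; exact Nat.le_mul_of_pos_right _ (by positivity)
  have ha0 : 0 < a := by positivity
  have hN0 : 0 < N := by positivity
  -- the subset at scale r
  let G : Finset (S → Fin N) := (univ : Finset (S → Fin N)).filter
      (fun f => ((f j : Fin N) : ℕ) < a ∧ ∀ i ∈ J.erase j, ¬ ((f i : ℕ) < a))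
  have hGcard : G.card = a * (N - a) ^ (k - 1) * N ^ (Fintype.card S - k) :=
    card_priv S N a haN' J j hj
  have hrlt : r < R + 1 := by omega
  let e : (S → Fin N) ↪ (Fin (R + 1) × (S → Fin (2 ^ R))) :=
    ⟨fun f => (⟨r, hrlt⟩, f), fun f g h => by
      have := congrArg Prod.snd h
      exact this⟩
  have hsub : G.map e ⊆ (fam S R j) \ ((J.erase j).biUnion (fam S R)) := by
    intro y hy
    rw [mem_map] at hy
    obtain ⟨f, hf, rfl⟩ := hy
    simp only [G, mem_filter, mem_univ, true_and] at hf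
    rw [mem_sdiff, mem_biUnion]
    refine ⟨?_, ?_⟩
    · simp only [fam, mem_filter, mem_univ, true_and]
      exact hf.1
    · rintro ⟨i, hi, h⟩
      simp only [fam, mem_filter, mem_univ, true_and] at h
      exact hf.2 i hi h
  have hle : G.card ≤ ((fam S R j) \ ((J.erase j).biUnion (fam S R))).card := by
    rw [← Finset.card_map e]
    exact Finset.card_le_card hsub
  have hkey : N ^ (Fintype.card S) ≤ 8 * k * G.card := by
    rw [hGcard]
    have h1 : N ^ Fintype.card S = N ^ k * N ^ (Fintype.card S - k) := by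
      rw [← pow_add]; congr 1; omega
    rw [h1, ← mul_assoc, ← mul_assoc]
    apply Nat.mul_le_mul_right
    -- N ^ k ≤ 8 k a (N - a) ^ (k-1)
    obtain ⟨m, hm⟩ : ∃ m, k = m + 1 := ⟨k - 1, by omega⟩
    have hreal : ((N : ℝ)) ^ k ≤ 8 * k * a * ((N : ℝ) - a) ^ (k - 1) := by
      have hNr : (0 : ℝ) < N := by exact_mod_cast hN0
      have hNe : (N : ℝ) = a * 2 ^ r := by exact_mod_cast haN.symm
      have h2r : (0 : ℝ) < 2 ^ r := by positivity
      have har : (0 : ℝ) < a := by exact_mod_cast ha0
      set t : ℝ := (a : ℝ) / N with ht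
      have ht1 : t * 2 ^ r = 1 := by
        rw [ht, hNe]; field_simp
      have hk2 : (2 * k : ℝ) ≤ 2 ^ r := by exact_mod_cast hr1
      have hk4 : (2 : ℝ) ^ r < 4 * k := by exact_mod_cast hr2
      have hkr : (1 : ℝ) ≤ k := by exact_mod_cast hk1
      have ht0 : 0 < t := by positivity
      have htu : t * (2 * k) ≤ 1 := by
        calc t * (2 * k) ≤ t * 2 ^ r := by gcongr
          _ = 1 := ht1
      have htl : 1 < t * (4 * k) := by
        calc 1 = t * 2 ^ r := ht1.symm
          _ < t * (4 * k) := by gcongr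
      have hber : 1 / 2 ≤ (1 - t) ^ (k - 1) := by
        have h3 : (1 : ℝ) + ((k - 1 : ℕ) : ℝ) * (-t) ≤ (1 + (-t)) ^ (k - 1) :=
          one_add_mul_le_pow (by nlinarith) _
        have h4 : ((k - 1 : ℕ) : ℝ) ≤ k := by exact_mod_cast Nat.sub_le k 1
        have h5 : ((k - 1 : ℕ) : ℝ) * t ≤ 1 / 2 := by nlinarith
        have h6 : (1 : ℝ) + ((k - 1 : ℕ) : ℝ) * (-t) ≥ 1 / 2 := by nlinarith
        have h7 : (1 + (-t)) ^ (k - 1) = (1 - t) ^ (k - 1) := by ring_nf
        rw [← h7]; linarith
      have hfac : (N : ℝ) - a = N * (1 - t) := by rw [ht]; field_simp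
      have hpow : (N : ℝ) ^ k = N * N ^ (k - 1) := by
        rw [← pow_succ']; congr 1; omega
      rw [hfac, mul_pow, hpow]
      have ha' : (a : ℝ) = N * t := by rw [ht]; field_simp
      have h8 : (1 : ℝ) ≤ 8 * k * t * (1 - t) ^ (k - 1) := by
        have h9 : (0 : ℝ) ≤ 8 * k * t := mul_nonneg (mul_nonneg (by norm_num) (by linarith)) ht0.le
        have : (8 * k * t) * (1 / 2) ≤ (8 * k * t) * (1 - t) ^ (k - 1) :=
          mul_le_mul_of_nonneg_left hber h9
        nlinarith
      calc (N : ℝ) * N ^ (k - 1) = (N * N ^ (k - 1)) * 1 := by ring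
        _ ≤ (N * N ^ (k - 1)) * (8 * k * t * (1 - t) ^ (k - 1)) := by gcongr
        _ = 8 * k * (N * t) * (N ^ (k - 1) * (1 - t) ^ (k - 1)) := by ring
        _ = 8 * k * a * (N ^ (k - 1) * (1 - t) ^ (k - 1)) := by rw [← ha']
    have hcast : ((N - a : ℕ) : ℝ) = (N : ℝ) - a := Nat.cast_sub haN'
    rw [← hcast] at hreal
    exact_mod_cast hreal
  have hcardY : Fintype.card (Fin (R + 1) × (S → Fin (2 ^ R))) = (R + 1) * N ^ (Fintype.card S) := by
    rw [Fintype.card_prod, Fintype.card_fin, Fintype.card_fun, Fintype.card_fin]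
  rw [hcardY]
  calc (R + 1) * N ^ (Fintype.card S) ≤ (R + 1) * (8 * k * G.card) := by gcongr
    _ ≤ (R + 1) * (8 * k * ((fam S R j) \ ((J.erase j).biUnion (fam S R))).card) := by gcongr
    _ = 8 * (R + 1) * k * ((fam S R j) \ ((J.erase j).biUnion (fam S R))).card := by ring

end Pool.Agent.H299Sofic
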